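import Mathlib
import Pool.Agent.V5helper2.NR.Stm3
import Pool.Agent.V5helper91.NR.DTM

/-! # Project NR, job QDT: quantitative deterministic theorem -/

set_option autoImplicit false
open Finset Filter Topology MeasureTheory AddCircle
open scoped ComplexConjugate

namespace Pool.Agent.V5helper75.NR

open Pool.Agent.Helper498.NCR Pool.Agent.V5helper2.CF Pool.Agent.V5helper2.NR Pool.Agent.V5helper91.NR

theorem t_QDT (h1 : Pool.Agent.V5helper2.NR.S_DEG) (h2 : Pool.Agent.V5helper2.NR.S_QPM) :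
    Pool.Agent.V5helper2.NR.S_QDT := by
  intro a v c C hC ha hv hc γ δ N hN hγ hδ ρ σ hρf hσf hρ hσ η hη
  have hC0 : (0 : ℝ) < C := by linarith
  have hCc : (C : ℂ) ≠ 0 := by exact_mod_cast hC0.ne'
  have ha' : ∀ n, ‖a n / (C : ℂ)‖ ≤ 1 := by
    intro n
    rw [norm_div, Complex.norm_real, Real.norm_of_nonneg hC0.le, div_le_one hC0]
    exact ha n
  have hγ' : Corr (fun n => a n / (C : ℂ)) (fun i => 3 * N i) (fun k => γ k / (C : ℂ) ^ 2) := by
    intro k
    refine ((hγ k).div_const ((C : ℂ) ^ 2)).congr fun i => ?_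
    rw [mul_div_assoc, Finset.sum_div]
    congr 1
    refine Finset.sum_congr rfl fun j _ => ?_
    rw [map_div₀, Complex.conj_ofReal]
    field_simp
  have hG : ∀ n m, Gam (fun k => γ k / (C : ℂ) ^ 2) n m = Gam γ n m / (C : ℂ) ^ 2 := by
    intro n m
    unfold Gam
    split_ifs
    · rfl
    · rw [map_div₀, map_pow, Complex.conj_ofReal]
  have hlim := h2 ρ σ hρf hσf γ δ hρ hσ
  have hd0 : 0 ≤ dmass ρ σ := ENNReal.toReal_nonneg
  have hlimn := hlim.norm
  rw [Complex.norm_real, Real.norm_of_nonneg hd0] at hlimn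
  obtain ⟨J, hJ1, hJ⟩ : ∃ J : ℕ, 1 ≤ J ∧ ‖((J : ℂ) ^ 2)⁻¹ * ∑ h ∈ range J, ∑ h' ∈ range J,
      Gam γ h h' * conj (Gam δ h h')‖ < dmass ρ σ + η / 36 := by
    have h5 := hlimn.eventually_lt_const (by linarith : dmass ρ σ < dmass ρ σ + η / 36)
    obtain ⟨J, hJ, hJ1⟩ := (h5.and (eventually_ge_atTop 1)).exists
    exact ⟨J, hJ1, hJ⟩
  have hR : Tendsto (fun i => 2 * (2 * (J : ℝ) / (N i : ℝ)) ^ 2 +
      2 * ‖((J : ℂ) ^ 2)⁻¹ * ∑ j ∈ range J, ∑ j' ∈ range J,
        (((N i : ℕ) : ℂ)⁻¹ * ∑ k ∈ range (3 * N i), (a (k + j) / (C : ℂ)) * conj (a (k + j') / (C : ℂ))) *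
        (((N i : ℕ) : ℂ)⁻¹ * ∑ l ∈ range (3 * N i), c (l + (2 * J - j)) * conj (c (l + (2 * J - j'))))‖)
      atTop (𝓝 (2 * (0 : ℝ) ^ 2 + 2 * ‖((J : ℂ) ^ 2)⁻¹ * ∑ j ∈ range J, ∑ j' ∈ range J,
        (3 * Gam (fun k => γ k / (C : ℂ) ^ 2) j j') * (3 * Gam δ (2 * J - j) (2 * J - j'))‖)) := by
    refine Tendsto.add ?_ ?_
    · refine ((Tendsto.div_atTop tendsto_const_nhds (tendsto_natCast_atTop_atTop.comp hN)).pow 2).const_mul 2
    · refine (Tendsto.norm (Tendsto.const_mul _ ?_)).const_mul 2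
      refine tendsto_finsetSum _ fun j _ => tendsto_finsetSum _ fun j' _ => ?_
      exact (corr_three ha' hN hγ' j j').mul (corr_three hc hN hδ (2 * J - j) (2 * J - j'))
  have hval : 2 * (0 : ℝ) ^ 2 + 2 * ‖((J : ℂ) ^ 2)⁻¹ * ∑ j ∈ range J, ∑ j' ∈ range J,
        (3 * Gam (fun k => γ k / (C : ℂ) ^ 2) j j') * (3 * Gam δ (2 * J - j) (2 * J - j'))‖ <
        (18 * dmass ρ σ + η) / C ^ 2 := by
    have e1 : ∑ j ∈ range J, ∑ j' ∈ range J,
        (3 * Gam (fun k => γ k / (C : ℂ) ^ 2) j j') * (3 * Gam δ (2 * J - j) (2 * J - j')) =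
        (9 / (C : ℂ) ^ 2) * ∑ j ∈ range J, ∑ j' ∈ range J, Gam γ j j' * conj (Gam δ j j') := by
      rw [Finset.mul_sum]
      refine Finset.sum_congr rfl fun j hj => ?_
      rw [Finset.mul_sum]
      refine Finset.sum_congr rfl fun j' hj' => ?_
      rw [gam_refl hδ J j j' (mem_range.1 hj) (mem_range.1 hj'), hG]
      ring
    have e2 : ‖(9 : ℂ) / (C : ℂ) ^ 2‖ = 9 / C ^ 2 := by
      rw [norm_div, norm_pow, Complex.norm_real, Real.norm_of_nonneg hC0.le]
      simp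
    rw [e1, mul_left_comm, norm_mul, e2, lt_div_iff₀ (by positivity)]
    have e3 : (2 * (0 : ℝ) ^ 2 + 2 * (9 / C ^ 2 * ‖((J : ℂ) ^ 2)⁻¹ * ∑ j ∈ range J, ∑ j' ∈ range J,
        Gam γ j j' * conj (Gam δ j j')‖)) * C ^ 2 = 18 * ‖((J : ℂ) ^ 2)⁻¹ * ∑ j ∈ range J,
        ∑ j' ∈ range J, Gam γ j j' * conj (Gam δ j j')‖ := by
      have hne : C ≠ 0 := hC0.ne'
      field_simp
      ring
    rw [e3]
    linarith
  filter_upwards [hR.eventually_lt_const hval, hN.eventually_ge_atTop 1] with i hi hi1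
  have h6 := h1 (fun m _ => m) (fun m n => m + 2 * n) (fun m n => m + n)
    (by intro m n m' n' h h'; omega)
    (by intro N m n h h'; omega)
    (by intro N m n h h'; omega)
    (fun n => a n / (C : ℂ)) c v ha' hc hv J (N i) hJ1 hi1 (fun j => j) (fun j => J - j)
    (fun j => j) (fun j => 2 * J - j) J J
    (by intro j hj; omega)
    (by intro j hj m n; rfl)
    (by intro j hj m n; omega)
    (by intro j hj m n; omega)
  have h7 := lt_of_le_of_lt h6 hi
  have h8 : bavg (N i) (fun m n => a m * v (m + n) * c (m + 2 * n)) =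
      (C : ℂ) * bavg (N i) (fun m n => a m / (C : ℂ) * c (m + 2 * n) * v (m + n)) := by
    unfold bavg
    rw [mul_left_comm]
    congr 1
    rw [Finset.mul_sum]
    refine Finset.sum_congr rfl fun m _ => ?_
    rw [Finset.mul_sum]
    refine Finset.sum_congr rfl fun n _ => ?_
    field_simp
  rw [h8, norm_mul, Complex.norm_real, Real.norm_of_nonneg hC0.le, mul_pow]
  rw [lt_div_iff₀ (by positivity)] at h7
  linarith

end Pool.Agent.V5helper75.NR
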